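import Pool.Agent.Q46.ND.StmE

/-!
# Job LN-EH (helper129, for project LN of helper46): the lone critical point
-/

set_option autoImplicit false

open MvPolynomial

namespace Pool.Agent.Q129.LNEH

open Pool.Agent.Q46.ND

variable {m d : ℕ}

/-- the zero vector -/
def zz (hd : 3 ≤ d) : BB m d := fun _ => ⟨0, by omega⟩

/-- the unit vector -/
def ee (hd : 3 ≤ d) (i : Fin m) : BB m d := fun j => if j = i then ⟨1, by omega⟩ else ⟨0, by omega⟩

theorem mon_zz {A : Type} [CommRing A] (hd : 3 ≤ d) : (mon (zz hd : BB m d) : MvPolynomial (Fin m) A) = 1 := by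
  simp [mon, zz]

theorem mon_ee {A : Type} [CommRing A] (hd : 3 ≤ d) (i : Fin m) :
    (mon (ee hd i) : MvPolynomial (Fin m) A) = X i := by
  unfold mon
  rw [Finset.prod_eq_single i]
  · simp [ee]
  · intro j _ hj
    simp [ee, hj]
  · intro h
    exact absurd (Finset.mem_univ i) h

theorem map_N {k k₁ : Type} [Field k] [Field k₁] (ψ : k →+* k₁) (u c : k) (M : Matrix (BB m d) (BB m d) k) :
    ((u * c) • (1 : Matrix (BB m d) (BB m d) k) + M).map ψ =
      (ψ u * ψ c) • (1 : Matrix (BB m d) (BB m d) k₁) + M.map ψ := by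
  ext i j
  simp only [Matrix.map_apply, Matrix.add_apply, Matrix.smul_apply, Matrix.one_apply, smul_eq_mul]
  split_ifs <;> simp

theorem ker_vec (hEE : P_EE) (hEF : P_EF) {k : Type} [Field k] (F : MvPolynomial (Fin m) k) (u : k)
    (M : Matrix (BB m d) (BB m d) k) (c : k) (hM : MulRel F u M) (k₁ : Type) [Field k₁] (ψ : k →+* k₁)
    (t : Fin m → k₁) (h1 : ∀ i, eval t (map ψ (pderiv i F)) = 0) (h2 : eval t (map ψ F) + ψ c = 0) :
    (((u * c) • (1 : Matrix (BB m d) (BB m d) k) + M).map ψ).mulVec (fun β => eval t (mon β)) = 0 := by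
  rw [map_N]
  exact (hEF (map ψ F) (ψ u) (M.map ψ) ((hEE ψ F u M).1 hM) t (ψ c)
    (fun i => by rw [pderiv_map]; exact h1 i) h2).1

theorem vec_ne {k₁ : Type} [Field k₁] (hd : 3 ≤ d) (t : Fin m → k₁) :
    (fun β : BB m d => eval t (mon β)) ≠ 0 := by
  intro h
  have h1 := congrFun h (zz hd)
  simp only [mon_zz, map_one, Pi.zero_apply] at h1
  exact one_ne_zero h1

theorem t_EH (hEE : P_EE) (hEF : P_EF) (hEG : P_EG) : P_EH := by
  intro k _ m d hd F u M c hu hM hχ
  have A : ∀ (k₁ : Type) [Field k₁] (ψ : k →+* k₁) (t : Fin m → k₁),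
      (∀ i, eval t (map ψ (pderiv i F)) = 0) → eval t (map ψ F) + ψ c = 0 →
      (chi u M).eval c = 0 := by
    intro k₁ _ ψ t h1 h2
    exact (hEG ψ u M c hu).1 _ (vec_ne hd t) (ker_vec hEE hEF F u M c hM k₁ ψ t h1 h2)
  have B : ∀ (t : Fin m → k), (∀ i, eval t (pderiv i F) = 0) → eval t F + c = 0 →
      (chi u M).eval c = 0 := by
    intro t h1 h2
    refine A k (RingHom.id k) t ?_ ?_
    · intro i
      rw [map_id]
      exact h1 i
    · rw [map_id]
      exact h2
  by_cases h0 : (chi u M).eval c = 0
  · have hder : (Polynomial.derivative (chi u M)).eval c ≠ 0 := by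
      rcases hχ with h | h
      · exact absurd h0 h
      · exact h
    obtain ⟨w, hw0, hw⟩ := (hEG (RingHom.id k) u M c hu).2.2 h0
    refine ⟨fun i => w (ee hd i) / w (zz hd), ?_, ?_⟩
    · intro k₁ _ ψ t h1 h2
      refine ⟨h0, ?_⟩
      have hv := ker_vec hEE hEF F u M c hM k₁ ψ t h1 h2
      have hw' : (((u * c) • (1 : Matrix (BB m d) (BB m d) k) + M).map ψ).mulVec (ψ ∘ w) = 0 := by
        ext i
        rw [← RingHom.map_mulVec, hw]
        simp
      have hl : ∃ l : k₁, ψ ∘ w = l • fun β : BB m d => eval t (mon β) := by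
        by_contra hcon
        push Not at hcon
        exact hder ((hEG ψ u M c hu).2.1 _ (vec_ne hd t) (ψ ∘ w) hcon hv hw')
      obtain ⟨l, hl⟩ := hl
      have hz := congrFun hl (zz hd)
      simp only [Function.comp_apply, Pi.smul_apply, mon_zz, map_one, smul_eq_mul, mul_one] at hz
      have hl0 : l ≠ 0 := by
        rintro rfl
        rw [zero_smul] at hl
        apply hw0
        ext β
        have h3 := congrFun hl β
        simpa using h3
      ext i
      have hi := congrFun hl (ee hd i)
      simp only [Function.comp_apply, Pi.smul_apply, mon_ee, eval_X, smul_eq_mul] at hi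
      rw [map_div₀, hi, hz]
      field_simp
    · intro h1 h2 hdet
      obtain ⟨w', hw'0, hw'⟩ := Matrix.exists_vecMul_eq_zero_iff.2 hdet
      set b : Fin m → k := fun i => w (ee hd i) / w (zz hd) with hb
      have hE := hEF F u M hM b c h1 h2
      have hE2 := hE.2 w' (fun i => by
        have h3 := congrFun hw' i
        simpa [Matrix.vecMul, dotProduct] using h3)
      refine hder ((hEG (RingHom.id k) u M c hu).2.1 (fun β => eval b (mon β)) (vec_ne hd b)
        (fun β => ∑ j, w' j * eval b (pderiv j (mon β))) ?_ ?_ ?_)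
      · intro l hl
        have hz := congrFun hl (zz hd)
        simp only [mon_zz, map_one, Pi.smul_apply, smul_eq_mul, mul_one, Derivation.map_one_eq_zero,
          map_zero, mul_zero, Finset.sum_const_zero] at hz
        apply hw'0
        ext i
        have hi := congrFun hl (ee hd i)
        rw [← hz] at hi
        simp only [mon_ee, zero_smul, Pi.zero_apply, pderiv_X] at hi
        rw [Finset.sum_eq_single i] at hi
        · simpa using hi
        · intro j _ hj
          simp [hj.symm]
        · intro h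
          exact absurd (Finset.mem_univ i) h
      · simpa using hE.1
      · simpa using hE2
  · refine ⟨0, ?_, ?_⟩
    · intro k₁ _ ψ t h1 h2
      exact absurd (A k₁ ψ t h1 h2) h0
    · intro h1 h2
      exact absurd (B 0 h1 h2) h0

end Pool.Agent.Q129.LNEH
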